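import Pool.Agent.Lib.MP_1a91b9_ntO.Main
import Pool.Agent.Lib.MP_1a91b9_ntI.FinAll
import Pool.Agent.Lib.MP_1a91b9_ntS3.G.MainG

/-!
# The main theorem for every prime number
-/

set_option autoImplicit false

namespace Pool.Agent.Lib.MP_1a91b9_ntO

open NumberField WeierstrassCurve
open Pool.Agent.Lib.MP_1a91b9_ntI (main_all Fr)
open Pool.Agent.Lib.MP_1a91b9_ntS (BSDMod)

noncomputable section

open Classical in
/-- **The main theorem for every prime number.** -/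
theorem main_allp (p : ℕ) [Fact p.Prime] (K : Type) [Field K] [NumberField K]
    (hK : Module.finrank ℚ K = 2) :
    ((∃ W : WeierstrassCurve K, CMp p W) ↔
      (p, discr K) ∈ [((2 : ℕ), (-3 : ℤ)), (2, -4), (2, -7), (2, -8), (3, -3)]) ∧
    ((∃ W : WeierstrassCurve K, CMp p W) → ∃ (a₂ a₃ a₄ : 𝓞 K) (w : ℕ) (c : ℝ) (q : 𝓞 K → ℚ),
      (w = if discr K = -4 then 4 else p) ∧
      (¬ w ∣ 2 → a₂ = 0) ∧ (¬ w ∣ 3 → a₃ = 0) ∧ (¬ w ∣ 4 → a₄ = 0) ∧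
      (c = if Prime (p : 𝓞 K) then ∏' i : ℕ, (1 + 1 / (p : ℝ) ^ (2 * i + 1))⁻¹ else
        if Squarefree (p : 𝓞 K) then ∏' i : ℕ, (1 - 1 / (p : ℝ) ^ (i + 1)) else
        ∏' i : ℕ, (1 + 1 / (p : ℝ) ^ (i + 1))⁻¹) ∧
      (∀ W : WeierstrassCurve K, CMp p W ↔
        ∃ D : 𝓞 K, Fr K w D ∧ ∃ C : VariableChange K, C • W = fam K w a₂ a₃ a₄ D) ∧
      (∀ D D' : 𝓞 K, Fr K w D → Fr K w D' →
        ((∃ C : VariableChange K, C • fam K w a₂ a₃ a₄ D = fam K w a₂ a₃ a₄ D') ↔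
          ∃ u : 𝓞 K, IsUnit u ∧ D' = u ^ w * D)) ∧
      (∀ (D : 𝓞 K) (W : WeierstrassCurve K) (C : VariableChange K), Fr K w D →
        C • W = fam K w a₂ a₃ a₄ D → BSDMod p W (q D)) ∧
      ∀ (n : ℕ) (m u : 𝓞 K), m ∣ (p : 𝓞 K) ^ n →
        (∀ π : 𝓞 K, Prime π → ¬ (π ^ w ∣ m ∧ π ^ w ∣ u)) →
        Filter.Tendsto (fun X : ℝ =>
          (Nat.card {D : 𝓞 K // Fr K w D ∧ m ∣ D - u ∧ |Algebra.norm ℤ D| ≤ X ∧
            ¬ (p : ℤ) ∣ (q D).num} : ℝ) /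
          (Nat.card {D : 𝓞 K // Fr K w D ∧ m ∣ D - u ∧ |Algebra.norm ℤ D| ≤ X} : ℝ))
          Filter.atTop (nhds c)) :=
  main_of p K hK (main_all K hK).2
    (Pool.Agent.Lib.MP_1a91b9_ntS3.CM.main_all3_of
      Pool.Agent.Lib.MP_1a91b9_ntS3.G.main_q3G K hK).2

end

end Pool.Agent.Lib.MP_1a91b9_ntO
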