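import Pool.Agent.Lib.MP_1a91b9_ntI.Defs

/-!
# The curves with complex multiplication by the ring of integers and a rational point of order `p`

`CMp p W`: `W` has complex multiplication by the ring of integers of the quadratic field `K` and an
equation `y² + a₃ y = x³ + a₂ x² + a₄ x` with `a_i = 0` unless `p` divides `i`. `fam K w a₂ a₃ a₄ D`: the curve
`y² + a₃ D^{3/w} y = x³ + a₂ D^{2/w} x² + a₄ D^{4/w} x`.
-/

set_option autoImplicit false

namespace Pool.Agent.Lib.MP_1a91b9_ntO

open NumberField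

noncomputable section

/-- The pairs `(j, D)`: `D` is the discriminant of an imaginary quadratic field of class number one and `j`
the invariant of the elliptic curves with complex multiplication by its ring of integers. -/
def cmMax : List (ℤ × ℤ) :=
  [(0, -3), (1728, -4), (-3375, -7), (8000, -8), (-32768, -11), (-884736, -19), (-884736000, -43),
    (-147197952000, -67), (-262537412640768000, -163)]

/-- The class of the curves `W` over a quadratic field `K` which are nonsingular, have complex multiplication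
by the ring of integers of `K` (the invariant `j = c₄³ / Δ` of `W` and the discriminant of `K` are in the list)
and are isomorphic over `K` to a curve `y² + a₃ y = x³ + a₂ x² + a₄ x` where `a_i = 0` unless `p` divides `i`. -/
def CMp (p : ℕ) {K : Type*} [Field K] [NumberField K] (W : WeierstrassCurve K) : Prop :=
  W.Δ ≠ 0 ∧ (∃ j : ℤ, (j, discr K) ∈ cmMax ∧ W.c₄ ^ 3 = j * W.Δ) ∧
    ∃ (C : WeierstrassCurve.VariableChange K) (a₂ a₃ a₄ : K), C • W = ⟨0, a₂, a₃, a₄, 0⟩ ∧
      (¬ p ∣ 2 → a₂ = 0) ∧ (¬ p ∣ 3 → a₃ = 0) ∧ (¬ p ∣ 4 → a₄ = 0)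

/-- The curve `y² + a₃ D^{3/w} y = x³ + a₂ D^{2/w} x² + a₄ D^{4/w} x`; the exponents are used if `w` divides `3`,
`2`, `4`. -/
def fam (K : Type) [Field K] (w : ℕ) (a₂ a₃ a₄ D : 𝓞 K) : WeierstrassCurve K :=
  ⟨0, ((a₂ * D ^ (2 / w) : 𝓞 K) : K), ((a₃ * D ^ (3 / w) : 𝓞 K) : K),
    ((a₄ * D ^ (4 / w) : 𝓞 K) : K), 0⟩

end

end Pool.Agent.Lib.MP_1a91b9_ntO
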