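import Pool.Agent.Lib.MP_1a91b9_ntT3.S9.Defs

/-!
# The conjecture up to finitely many primes, over towers of fields
-/

set_option autoImplicit false

namespace Pool.Agent.Lib.MP_1a91b9_ntO

open NumberField IsDedekindDomain WeierstrassCurve Pool.Agent.Lib.MP_1a91b9_ntT.S9
open Pool.Agent.Lib.MP_1a91b9_ntT3.S9 (ShaP)

/-- **The conjecture of Birch and Swinnerton-Dyer for `V` over `K`, with both sides zero, up to finitely many
primes, and over the towers of `q`-extensions.** There is a finite set `S` of prime numbers such that for every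
prime number `q` not in `S`, every Galois extension `M` of `K` of degree `q ^ j`, every field `L` between `K` and
`M`, every field `N` contained in `L` and every Weierstrass curve `W` over `N` which becomes isomorphic to `V`
over `L` the following holds. Suppose for every place `v` of `K` which ramifies in `L`: if `v` is above `q` then
its norm is `q`, if `v` is not above `q` and `V` has good reduction at `v` then `q` does not divide the number of
points of the reduction. Then the L-series of `W` has an entire continuation `g` with `g(1) ≠ 0`, `W(N)` is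
finite, and the `q`-part of the formula holds for `W` over `N`:
`g(1) √|D| / Ω = r * #Sha[q^∞] * ∏ c_v / #W(N)²` with a rational number `r` whose numerator and denominator are
prime to `q`; moreover `#Sha[q^∞] = 1`, and all the `c_v` and `#W(N)` are prime to `q`. (For `N = L = M = K`,
`W = V` there is no condition on the ramification.) -/
def Tow {K : Type} [Field K] [NumberField K] (V : WeierstrassCurve K) : Prop :=
  ∃ S : Finset ℕ, ∀ (q : ℕ) [Fact q.Prime], q ∉ S →
    ∀ (j : ℕ) (N L M : Type) [Field N] [NumberField N] [Field L] [NumberField L] [Field M]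
      [NumberField M] [Algebra N L] [Algebra K L] [Algebra L M] [Algebra K M]
      [IsScalarTower K L M] [IsGalois K M], Module.finrank K M = q ^ j →
    (∀ (v : HeightOneSpectrum (𝓞 K)) (w : HeightOneSpectrum (𝓞 L)),
      v.asIdeal.map (algebraMap (𝓞 K) (𝓞 L)) ≤ w.asIdeal ^ 2 →
        ((q : 𝓞 K) ∈ v.asIdeal → Ideal.absNorm v.asIdeal = q) ∧
          ((q : 𝓞 K) ∉ v.asIdeal → ∀ (V₀ : WeierstrassCurve (𝓞 K)) (C₀ : VariableChange K),
            C₀ • V = V₀.map (algebraMap (𝓞 K) K) → V₀.Δ ∉ v.asIdeal →
              ¬ q ∣ Nat.card (V₀.map (Ideal.Quotient.mk v.asIdeal)).toAffine.Point)) →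
    ∀ (W : WeierstrassCurve N) (C : VariableChange L), C • W.baseChange L = V.baseChange L →
      ∃ g : ℂ → ℂ, Differentiable ℂ g ∧ (∀ s : ℂ, 3 / 2 < s.re → g s = W.LSeries s) ∧
        g 1 ≠ 0 ∧
        (∃ r : ℚ, IsCoprime r.num (q : ℤ) ∧ r.den.Coprime q ∧
          g 1 * (√|(discr N : ℝ)| : ℝ) / (period W : ℝ) =
            (r * ((Nat.card (ShaP q W) : ℝ) *
              ((∏ᶠ v : HeightOneSpectrum (𝓞 N), tam W v : ℕ) : ℝ) /
                (Nat.card W.toAffine.Point : ℝ) ^ 2) : ℝ)) ∧
        Nat.card (ShaP q W) = 1 ∧
        (∀ v : HeightOneSpectrum (𝓞 N), (tam W v).Coprime q) ∧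
        Finite W.toAffine.Point ∧ (Nat.card W.toAffine.Point).Coprime q

end Pool.Agent.Lib.MP_1a91b9_ntO
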