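import Pool.Agent.Lib.MP_1a91b9_ntI.KEq3

/-!
# The four quadratic fields and their discriminants
-/

set_option autoImplicit false

namespace Pool.Agent.Lib.MP_1a91b9_ntO

open NumberField
open Pool.Agent.Lib.MP_1a91b9_ntI (disc_sq exists_beta of_discr)

section

variable {K : Type} [Field K] [NumberField K]

theorem discr_mod (hK : Module.finrank ℚ K = 2) : discr K % 4 = 0 ∨ discr K % 4 = 1 := by
  obtain ⟨x, t, n, -, h⟩ := exists_beta hK
  rw [h]
  rcases Int.even_or_odd' t with ⟨k, hk | hk⟩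
  · left
    have e : t ^ 2 - 4 * n = 4 * (k ^ 2 - n) := by rw [hk]; ring
    omega
  · right
    have e : t ^ 2 - 4 * n = 4 * (k ^ 2 + k - n) + 1 := by rw [hk]; ring
    omega

theorem val_of {D d m : ℤ} (h : m = d ^ 2 * D) (hm : m < 0) (h8 : -8 ≤ m) (h4 : D % 4 = 0 ∨ D % 4 = 1) :
    D = m := by
  have hd0 : d ≠ 0 := by
    rintro rfl
    norm_num at h
    omega
  have hD : D < 0 := by
    by_contra hn
    push Not at hn
    have := mul_nonneg (sq_nonneg d) hn
    omega
  have h1 : d ^ 2 ≤ 8 := by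
    by_contra hn
    push Not at hn
    nlinarith
  have h2 : 0 < d ^ 2 := by positivity
  have h3 : d ≤ 2 := by nlinarith
  have h3' : -2 ≤ d := by nlinarith
  have h5 : d = 1 ∨ d = -1 ∨ d = 2 ∨ d = -2 := by omega
  rcases h5 with rfl | rfl | rfl | rfl
  · omega
  · omega
  · omega
  · omega

theorem val_i (hK : Module.finrank ℚ K = 2) {x : 𝓞 K} (h : x ^ 2 = -1) : discr K = -4 := by
  obtain ⟨d, hd⟩ := disc_sq hK (x := x) (t := 0) (n := 1) (by rw [h]; push_cast; ring) (by norm_num)
  have := val_of hd (by norm_num) (by norm_num) (discr_mod hK)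
  omega

theorem val_s (hK : Module.finrank ℚ K = 2) {x : 𝓞 K} (h : x ^ 2 = -2) : discr K = -8 := by
  obtain ⟨d, hd⟩ := disc_sq hK (x := x) (t := 0) (n := 2) (by rw [h]; push_cast; ring) (by norm_num)
  have := val_of hd (by norm_num) (by norm_num) (discr_mod hK)
  omega

theorem val_t (hK : Module.finrank ℚ K = 2) {x : 𝓞 K} (h : x ^ 2 = x - 2) : discr K = -7 := by
  obtain ⟨d, hd⟩ := disc_sq hK (x := x) (t := 1) (n := 2) (by rw [h]; push_cast; ring) (by norm_num)
  have := val_of hd (by norm_num) (by norm_num) (discr_mod hK)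
  omega

theorem val_w (hK : Module.finrank ℚ K = 2) {x : 𝓞 K} (h : x ^ 2 = x - 1) : discr K = -3 := by
  obtain ⟨d, hd⟩ := disc_sq hK (x := x) (t := 1) (n := 1) (by rw [h]; push_cast; ring) (by norm_num)
  have := val_of hd (by norm_num) (by norm_num) (discr_mod hK)
  omega

theorem of_val_i (hK : Module.finrank ℚ K = 2) (h : discr K = -4) : ∃ x : 𝓞 K, x ^ 2 = -1 := by
  obtain ⟨x, h1 | h1 | h1 | h1⟩ := of_discr hK (by omega) (by omega)
  · exact ⟨x, h1⟩
  · exact absurd (val_s hK h1) (by omega)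
  · exact absurd (val_t hK h1) (by omega)
  · exact absurd (val_w hK h1) (by omega)

theorem of_val_s (hK : Module.finrank ℚ K = 2) (h : discr K = -8) : ∃ x : 𝓞 K, x ^ 2 = -2 := by
  obtain ⟨x, h1 | h1 | h1 | h1⟩ := of_discr hK (by omega) (by omega)
  · exact absurd (val_i hK h1) (by omega)
  · exact ⟨x, h1⟩
  · exact absurd (val_t hK h1) (by omega)
  · exact absurd (val_w hK h1) (by omega)

theorem of_val_t (hK : Module.finrank ℚ K = 2) (h : discr K = -7) : ∃ x : 𝓞 K, x ^ 2 = x - 2 := by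
  obtain ⟨x, h1 | h1 | h1 | h1⟩ := of_discr hK (by omega) (by omega)
  · exact absurd (val_i hK h1) (by omega)
  · exact absurd (val_s hK h1) (by omega)
  · exact ⟨x, h1⟩
  · exact absurd (val_w hK h1) (by omega)

theorem of_val_w (hK : Module.finrank ℚ K = 2) (h : discr K = -3) : ∃ x : 𝓞 K, x ^ 2 = x - 1 := by
  obtain ⟨x, h1 | h1 | h1 | h1⟩ := of_discr hK (by omega) (by omega)
  · exact absurd (val_i hK h1) (by omega)
  · exact absurd (val_s hK h1) (by omega)
  · exact absurd (val_t hK h1) (by omega)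
  · exact ⟨x, h1⟩

/-- the discriminants in `[-8, 0)` -/
theorem discr_cases (hK : Module.finrank ℚ K = 2) :
    (discr K < 0 ∧ -8 ≤ discr K) ↔
      discr K = -3 ∨ discr K = -4 ∨ discr K = -7 ∨ discr K = -8 := by
  have h := discr_mod hK
  constructor
  · rintro ⟨h1, h2⟩
    omega
  · intro h1
    omega

end

end Pool.Agent.Lib.MP_1a91b9_ntO
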