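import Pool.Agent.Lib.MP_1a91b9_ntO.Three
import Pool.Agent.Lib.MP_1a91b9_ntI.Core4
import Pool.Agent.Lib.MP_1a91b9_ntS3.CM.Fin

/-!
# The main theorem for every prime number, from the theorems for `p = 2` and `p = 3`
-/

set_option autoImplicit false
set_option linter.unusedSectionVars false

namespace Pool.Agent.Lib.MP_1a91b9_ntO

open NumberField WeierstrassCurve
open Pool.Agent.Lib.MP_1a91b9_ntI
open Pool.Agent.Lib.MP_1a91b9_ntS (BSDMod)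
open Pool.Agent.Lib.MP_1a91b9_ntS3.CM

noncomputable section

/-- the second half of the main theorem -/
def Half (p : ℕ) [Fact p.Prime] (K : Type) [Field K] [NumberField K] (w : ℕ) (a₂ a₃ a₄ : 𝓞 K)
    (c : ℝ) (q : 𝓞 K → ℚ) : Prop :=
  (∀ W : WeierstrassCurve K, CMp p W ↔
    ∃ D : 𝓞 K, Fr K w D ∧ ∃ C : VariableChange K, C • W = fam K w a₂ a₃ a₄ D) ∧
  (∀ D D' : 𝓞 K, Fr K w D → Fr K w D' →
    ((∃ C : VariableChange K, C • fam K w a₂ a₃ a₄ D = fam K w a₂ a₃ a₄ D') ↔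
      ∃ u : 𝓞 K, IsUnit u ∧ D' = u ^ w * D)) ∧
  (∀ (D : 𝓞 K) (W : WeierstrassCurve K) (C : VariableChange K), Fr K w D →
    C • W = fam K w a₂ a₃ a₄ D → BSDMod p W (q D)) ∧
  ∀ (n : ℕ) (m u : 𝓞 K), m ∣ (p : 𝓞 K) ^ n → (∀ π : 𝓞 K, Prime π → ¬ (π ^ w ∣ m ∧ π ^ w ∣ u)) →
    Filter.Tendsto (fun X : ℝ =>
      (Nat.card {D : 𝓞 K // Fr K w D ∧ m ∣ D - u ∧ |Algebra.norm ℤ D| ≤ X ∧
        ¬ (p : ℤ) ∣ (q D).num} : ℝ) /
      (Nat.card {D : 𝓞 K // Fr K w D ∧ m ∣ D - u ∧ |Algebra.norm ℤ D| ≤ X} : ℝ))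
      Filter.atTop (nhds c)

section

variable {K : Type} [Field K] [NumberField K]

theorem fam_two (a b D : 𝓞 K) : fam K 2 a 0 b D = cW K 2 a b D := by
  unfold fam cW
  norm_num

theorem fam_four (b D : 𝓞 K) : fam K 4 0 0 b D = cW K 4 0 b D := by
  unfold fam cW
  norm_num

theorem fam_three (D : 𝓞 K) : fam K 3 0 1 0 D = W3 K D := by
  unfold fam W3
  norm_num

/-- from the theorem for `p = 2` -/
theorem half_two (hK : Module.finrank ℚ K = 2) {w : ℕ} {a b : 𝓞 K} {c : ℝ} {q : 𝓞 K → ℚ}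
    (hf : ∀ D : 𝓞 K, fam K w a 0 b D = cW K w a b D)
    (h : (∀ W : WeierstrassCurve K, CM2 W ↔
        ∃ D : 𝓞 K, Fr K w D ∧ ∃ C : VariableChange K, C • W = cW K w a b D) ∧
      (∀ D D' : 𝓞 K, Fr K w D → Fr K w D' →
        ((∃ C : VariableChange K, C • cW K w a b D = cW K w a b D') ↔
          ∃ u : 𝓞 K, IsUnit u ∧ D' = u ^ w * D)) ∧
      (∀ (D : 𝓞 K) (W : WeierstrassCurve K) (C : VariableChange K), Fr K w D →
        C • W = cW K w a b D → BSDMod 2 W (q D)) ∧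
      ∀ (n : ℕ) (m u : 𝓞 K), m ∣ 2 ^ n → (∀ p : 𝓞 K, Prime p → ¬ (p ^ w ∣ m ∧ p ^ w ∣ u)) →
        Filter.Tendsto (fun X : ℝ =>
          (Nat.card {D : 𝓞 K // Fr K w D ∧ m ∣ D - u ∧ |Algebra.norm ℤ D| ≤ X ∧
            ¬ 2 ∣ (q D).num} : ℝ) /
          (Nat.card {D : 𝓞 K // Fr K w D ∧ m ∣ D - u ∧ |Algebra.norm ℤ D| ≤ X} : ℝ))
          Filter.atTop (nhds c)) :
    Half 2 K w a 0 b c q := by
  obtain ⟨h1, h2, h3, h4⟩ := h
  refine ⟨fun W => ?_, fun D D' hD hD' => ?_, fun D W C hD hC => ?_, fun n m u hm hu => ?_⟩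
  · rw [cmp_two_iff hK, h1]
    simp only [hf]
  · rw [hf, hf]
    exact h2 D D' hD hD'
  · rw [hf] at hC
    exact h3 D W C hD hC
  · have e : ((2 : ℕ) : 𝓞 K) = 2 := Nat.cast_ofNat
    have e' : ((2 : ℕ) : ℤ) = 2 := Nat.cast_ofNat
    rw [e] at hm
    rw [e']
    exact h4 n m u hm hu

/-- from the theorem for `p = 3` -/
theorem half_three (hK : Module.finrank ℚ K = 2) (hD3 : discr K = -3) {s : 𝓞 K} (hs : s ^ 2 = -3) {c : ℝ}
    {q : 𝓞 K → ℚ}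
    (h : (∀ W : WeierstrassCurve K, CM3 W ↔ ∃ D : 𝓞 K, (∀ p : 𝓞 K, Prime p → ¬ p ^ 3 ∣ D) ∧
        ∃ C : VariableChange K, C • W = W3 K D) ∧
      (∀ D D' : 𝓞 K, (∀ p : 𝓞 K, Prime p → ¬ p ^ 3 ∣ D) → (∀ p : 𝓞 K, Prime p → ¬ p ^ 3 ∣ D') →
        ((∃ C : VariableChange K, C • W3 K D = W3 K D') ↔ D' = D ∨ D' = -D)) ∧
      (∀ (D : 𝓞 K) (W : WeierstrassCurve K) (C : VariableChange K),
        (∀ p : 𝓞 K, Prime p → ¬ p ^ 3 ∣ D) → C • W = W3 K D → BSDMod 3 W (q D)) ∧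
      ∀ (n : ℕ) (m u : 𝓞 K), m ∣ 3 ^ n → ¬ (s ^ 3 ∣ m ∧ s ^ 3 ∣ u) →
        Filter.Tendsto (fun X : ℝ =>
          (Nat.card {D : 𝓞 K // (∀ p, Prime p → ¬ p ^ 3 ∣ D) ∧ m ∣ D - u ∧
            |Algebra.norm ℤ D| ≤ X ∧ ¬ 3 ∣ (q D).num} : ℝ) /
          (Nat.card {D : 𝓞 K // (∀ p, Prime p → ¬ p ^ 3 ∣ D) ∧ m ∣ D - u ∧
            |Algebra.norm ℤ D| ≤ X} : ℝ)) Filter.atTop (nhds c)) :
    Half 3 K 3 0 1 0 c q := by
  obtain ⟨h1, h2, h3, h4⟩ := h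
  refine ⟨fun W => ?_, fun D D' hD hD' => ?_, fun D W C hD hC => ?_, fun n m u hm hu => ?_⟩
  · rw [cmp_three_iff hK, h1]
    simp only [fam_three]
    exact Iff.rfl
  · rw [fam_three, fam_three, h2 D D' hD hD']
    constructor
    · rintro (rfl | rfl)
      · exact ⟨1, isUnit_one, by ring⟩
      · exact ⟨-1, isUnit_one.neg, by ring⟩
    · rintro ⟨u, hu, rfl⟩
      obtain ⟨θ, hθ⟩ := of_val_w hK hD3
      have h5 : u ^ 3 = 1 ∨ u ^ 3 = -1 := by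
        rcases units_w hK (emp_w hθ) hθ hu with h | h | h | h | h | h
        · left; rw [h]; ring
        · right; rw [h]; ring
        · right; rw [h]; linear_combination (θ + 1) * hθ
        · left; rw [h]; linear_combination -(θ + 1) * hθ
        · right; rw [h]; linear_combination (2 - θ) * hθ
        · left; rw [h]; linear_combination -(2 - θ) * hθ
      rcases h5 with h5 | h5
      · left
        rw [h5, one_mul]
      · right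
        rw [h5, neg_one_mul]
  · rw [fam_three] at hC
    exact h3 D W C hD hC
  · have e : ((3 : ℕ) : 𝓞 K) = 3 := Nat.cast_ofNat
    have e' : ((3 : ℕ) : ℤ) = 3 := Nat.cast_ofNat
    rw [e] at hm
    rw [e']
    refine h4 n m u hm (hu s ?_)
    have hn : Algebra.norm ℤ s = 3 ∨ Algebra.norm ℤ s = -3 := by
      have h6 := congrArg (Algebra.norm ℤ) hs
      have h7 := norm_int (K := K) hK (-3)
      push_cast at h7
      rw [map_pow, h7] at h6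
      have h8 : (Algebra.norm ℤ s - 3) * (Algebra.norm ℤ s + 3) = 0 := by linear_combination h6
      rcases mul_eq_zero.1 h8 with h9 | h9
      · left; linarith
      · right; linarith
    have hs0 : s ≠ 0 := by
      rintro rfl
      have h9 := congrArg (Algebra.norm ℤ) hs
      have h7 := norm_int (K := K) hK (-3)
      push_cast at h7
      have e0 : ((0 : 𝓞 K)) ^ 2 = ((0 : ℤ) : 𝓞 K) := by push_cast; ring
      rw [h7, e0, norm_int hK] at h9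
      norm_num at h9
    have ha : Ideal.absNorm (Ideal.span ({s} : Set (𝓞 K))) = 3 := by
      rw [Ideal.absNorm_span_singleton]
      rcases hn with h | h
      · rw [h]; rfl
      · rw [h]; rfl
    have hI : (Ideal.span ({s} : Set (𝓞 K))).IsPrime := by
      apply Ideal.isPrime_of_irreducible_absNorm
      rw [ha]
      exact Nat.prime_three
    exact (Ideal.span_singleton_prime hs0).1 hI

end

open Classical in
/-- **The main theorem for every prime number**, from the theorems for `p = 2` and `p = 3`. -/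
theorem main_of (p : ℕ) [Fact p.Prime] (K : Type) [Field K] [NumberField K]
    (hK : Module.finrank ℚ K = 2)
    (M2 : discr K < 0 → -8 ≤ discr K → ∃ (s a b : 𝓞 K) (w : ℕ) (c : ℝ) (q : 𝓞 K → ℚ),
      (s ^ 2 = -1 ∧ w = 4 ∧ a = 0 ∧ b = -1 ∨ s ^ 2 = -2 ∧ w = 2 ∧ a = 4 ∧ b = 2 ∨
        s ^ 2 = s - 2 ∧ w = 2 ∧ a = 1 + (1 - s) ^ 4 ∧ b = (1 - s) ^ 4 ∨
        s ^ 2 = s - 1 ∧ w = 2 ∧ a = -3 ∧ b = 3) ∧
      (Prime (2 : 𝓞 K) → c = ∏' i : ℕ, (1 + 1 / (2 : ℝ) ^ (2 * i + 1))⁻¹) ∧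
      (¬ Prime (2 : 𝓞 K) → Squarefree (2 : 𝓞 K) → c = ∏' i : ℕ, (1 - 1 / (2 : ℝ) ^ (i + 1))) ∧
      (¬ Squarefree (2 : 𝓞 K) → c = ∏' i : ℕ, (1 + 1 / (2 : ℝ) ^ (i + 1))⁻¹) ∧
      (∀ W : WeierstrassCurve K, CM2 W ↔
        ∃ D : 𝓞 K, Fr K w D ∧ ∃ C : VariableChange K, C • W = cW K w a b D) ∧
      (∀ D D' : 𝓞 K, Fr K w D → Fr K w D' →
        ((∃ C : VariableChange K, C • cW K w a b D = cW K w a b D') ↔
          ∃ u : 𝓞 K, IsUnit u ∧ D' = u ^ w * D)) ∧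
      (∀ (D : 𝓞 K) (W : WeierstrassCurve K) (C : VariableChange K), Fr K w D →
        C • W = cW K w a b D → BSDMod 2 W (q D)) ∧
      ∀ (n : ℕ) (m u : 𝓞 K), m ∣ 2 ^ n → (∀ p : 𝓞 K, Prime p → ¬ (p ^ w ∣ m ∧ p ^ w ∣ u)) →
        Filter.Tendsto (fun X : ℝ =>
          (Nat.card {D : 𝓞 K // Fr K w D ∧ m ∣ D - u ∧ |Algebra.norm ℤ D| ≤ X ∧
            ¬ 2 ∣ (q D).num} : ℝ) /
          (Nat.card {D : 𝓞 K // Fr K w D ∧ m ∣ D - u ∧ |Algebra.norm ℤ D| ≤ X} : ℝ))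
          Filter.atTop (nhds c))
    (M3 : discr K = -3 → ∃ (s : 𝓞 K) (q : 𝓞 K → ℚ), s ^ 2 = -3 ∧
      (∀ W : WeierstrassCurve K, CM3 W ↔ ∃ D : 𝓞 K, (∀ p : 𝓞 K, Prime p → ¬ p ^ 3 ∣ D) ∧
        ∃ C : VariableChange K, C • W = W3 K D) ∧
      (∀ D D' : 𝓞 K, (∀ p : 𝓞 K, Prime p → ¬ p ^ 3 ∣ D) → (∀ p : 𝓞 K, Prime p → ¬ p ^ 3 ∣ D') →
        ((∃ C : VariableChange K, C • W3 K D = W3 K D') ↔ D' = D ∨ D' = -D)) ∧
      (∀ (D : 𝓞 K) (W : WeierstrassCurve K) (C : VariableChange K),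
        (∀ p : 𝓞 K, Prime p → ¬ p ^ 3 ∣ D) → C • W = W3 K D → BSDMod 3 W (q D)) ∧
      ∀ (n : ℕ) (m u : 𝓞 K), m ∣ 3 ^ n → ¬ (s ^ 3 ∣ m ∧ s ^ 3 ∣ u) →
        Filter.Tendsto (fun X : ℝ =>
          (Nat.card {D : 𝓞 K // (∀ p, Prime p → ¬ p ^ 3 ∣ D) ∧ m ∣ D - u ∧
            |Algebra.norm ℤ D| ≤ X ∧ ¬ 3 ∣ (q D).num} : ℝ) /
          (Nat.card {D : 𝓞 K // (∀ p, Prime p → ¬ p ^ 3 ∣ D) ∧ m ∣ D - u ∧
            |Algebra.norm ℤ D| ≤ X} : ℝ)) Filter.atTop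
          (nhds (∏' i : ℕ, (1 + 1 / (3 : ℝ) ^ (i + 1))⁻¹))) :
    ((∃ W : WeierstrassCurve K, CMp p W) ↔
      (p, discr K) ∈ [((2 : ℕ), (-3 : ℤ)), (2, -4), (2, -7), (2, -8), (3, -3)]) ∧
    ((∃ W : WeierstrassCurve K, CMp p W) → ∃ (a₂ a₃ a₄ : 𝓞 K) (w : ℕ) (c : ℝ) (q : 𝓞 K → ℚ),
      (w = if discr K = -4 then 4 else p) ∧
      (¬ w ∣ 2 → a₂ = 0) ∧ (¬ w ∣ 3 → a₃ = 0) ∧ (¬ w ∣ 4 → a₄ = 0) ∧
      (c = if Prime (p : 𝓞 K) then ∏' i : ℕ, (1 + 1 / (p : ℝ) ^ (2 * i + 1))⁻¹ else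
        if Squarefree (p : 𝓞 K) then ∏' i : ℕ, (1 - 1 / (p : ℝ) ^ (i + 1)) else
        ∏' i : ℕ, (1 + 1 / (p : ℝ) ^ (i + 1))⁻¹) ∧
      Half p K w a₂ a₃ a₄ c q) := by
  have hex : (∃ W : WeierstrassCurve K, CMp p W) ↔
      (p, discr K) ∈ [((2 : ℕ), (-3 : ℤ)), (2, -4), (2, -7), (2, -8), (3, -3)] := by
    simp only [List.mem_cons, Prod.mk.injEq, List.not_mem_nil, or_false]
    by_cases h2 : p = 2
    · subst h2
      have e : (∃ W : WeierstrassCurve K, CMp 2 W) ↔ ∃ W : WeierstrassCurve K, CM2 W := by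
        simp only [cmp_two_iff hK]
      rw [e, ex_iff hK, discr_cases hK]
      simp
    · by_cases h3 : p = 3
      · subst h3
        have e : (∃ W : WeierstrassCurve K, CMp 3 W) ↔ ∃ W : WeierstrassCurve K, CM3 W := by
          simp only [cmp_three_iff hK]
        rw [e, exists_cm3_iff hK]
        simp
      · constructor
        · rintro ⟨W, hW⟩
          exact (cmp_ge (Fact.out : p.Prime) h2 h3 W hW).elim
        · intro h
          omega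
  refine ⟨hex, fun h => ?_⟩
  rw [hex] at h
  simp only [List.mem_cons, Prod.mk.injEq, List.not_mem_nil, or_false] at h
  by_cases h2 : p = 2
  · subst h2
    obtain ⟨s, a, b, w, c, q, ht, c1, c2, c3, hh⟩ := M2 (by omega) (by omega)
    have ec : c = if Prime ((2 : ℕ) : 𝓞 K) then ∏' i : ℕ, (1 + 1 / ((2 : ℕ) : ℝ) ^ (2 * i + 1))⁻¹ else
        if Squarefree ((2 : ℕ) : 𝓞 K) then ∏' i : ℕ, (1 - 1 / ((2 : ℕ) : ℝ) ^ (i + 1)) else
        ∏' i : ℕ, (1 + 1 / ((2 : ℕ) : ℝ) ^ (i + 1))⁻¹ := by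
      have e : ((2 : ℕ) : 𝓞 K) = 2 := Nat.cast_ofNat
      have e' : ((2 : ℕ) : ℝ) = 2 := Nat.cast_ofNat
      rw [e, e']
      split_ifs with g1 g2
      · exact c1 g1
      · exact c2 g1 g2
      · exact c3 g2
    rcases ht with ⟨hs, rfl, rfl, rfl⟩ | ⟨hs, rfl, rfl, rfl⟩ | ⟨hs, rfl, rfl, rfl⟩ |
      ⟨hs, rfl, rfl, rfl⟩
    · refine ⟨0, 0, -1, 4, c, q, ?_, fun _ => rfl, fun _ => rfl, fun h => absurd (by norm_num) h, ec,
        half_two hK (fam_four _) hh⟩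
      rw [if_pos (val_i hK hs)]
    · refine ⟨4, 0, 2, 2, c, q, ?_, fun h => absurd (by norm_num) h, fun _ => rfl,
        fun h => absurd (by norm_num) h, ec, half_two hK (fam_two _ _) hh⟩
      rw [if_neg (by rw [val_s hK hs]; norm_num)]
    · refine ⟨_, 0, _, 2, c, q, ?_, fun h => absurd (by norm_num) h, fun _ => rfl,
        fun h => absurd (by norm_num) h, ec, half_two hK (fam_two _ _) hh⟩
      rw [if_neg (by rw [val_t hK hs]; norm_num)]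
    · refine ⟨-3, 0, 3, 2, c, q, ?_, fun h => absurd (by norm_num) h, fun _ => rfl,
        fun h => absurd (by norm_num) h, ec, half_two hK (fam_two _ _) hh⟩
      rw [if_neg (by rw [val_w hK hs]; norm_num)]
  · have h3 : p = 3 := by omega
    subst h3
    have hD3 : discr K = -3 := by omega
    obtain ⟨s, q, hs, hh⟩ := M3 hD3
    obtain ⟨θ, hθ⟩ := of_val_w hK hD3
    have e : ((3 : ℕ) : 𝓞 K) = 3 := Nat.cast_ofNat
    have e' : ((3 : ℕ) : ℝ) = 3 := Nat.cast_ofNat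
    refine ⟨0, 1, 0, 3, _, q, ?_, fun _ => rfl, fun h => absurd (by norm_num) h, fun _ => rfl, ?_,
      half_three hK hD3 hs hh⟩
    · rw [if_neg (by rw [hD3]; norm_num)]
    · rw [e, e', if_neg (np_three hK hθ), if_neg (nsf_three hK hθ)]

end

end Pool.Agent.Lib.MP_1a91b9_ntO
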