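import Pool.Agent.Lib.MP_1a91b9_ntO.Two
import Pool.Agent.Lib.MP_1a91b9_ntS3.CM.Fam

/-!
# The class for `p = 3`, and for `p > 3`
-/

set_option autoImplicit false
set_option linter.unusedSectionVars false

namespace Pool.Agent.Lib.MP_1a91b9_ntO

open NumberField WeierstrassCurve
open Pool.Agent.Lib.MP_1a91b9_ntI
open Pool.Agent.Lib.MP_1a91b9_nuI (HasJ hasJ_change)
open Pool.Agent.Lib.MP_1a91b9_ntS3.CM

section

variable {K : Type} [Field K] [NumberField K]

/-- **The class for `p = 3`.** -/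
theorem cmp_three_iff (hK : Module.finrank ℚ K = 2) (W : WeierstrassCurve K) : CMp 3 W ↔ CM3 W := by
  constructor
  · rintro ⟨hΔ, ⟨j, hm, hj⟩, C, a₂, a₃, a₄, hC, h2, -, h4⟩
    have h2' : a₂ = 0 := h2 (by norm_num)
    have h4' : a₄ = 0 := h4 (by norm_num)
    rw [h2', h4'] at hC
    have hV : (⟨0, 0, a₃, 0, 0⟩ : WeierstrassCurve K).Δ ≠ 0 := (Δ_smul hC).1 hΔ
    have hc : (⟨0, 0, a₃, 0, 0⟩ : WeierstrassCurve K) = tc 0 a₃ := rfl
    have ha : a₃ ≠ 0 := by
      rintro rfl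
      apply hV
      rw [hc, tc_Δ]
      ring
    have hjV : HasJ (tc 0 a₃) j := by
      rw [← hc, ← hC]
      exact hasJ_change W C j hj
    have hj0 : j = 0 := by
      unfold HasJ at hjV
      rw [tc_c₄] at hjV
      rw [hc] at hV
      have h1 : (j : K) * (tc 0 a₃).Δ = 0 := by
        rw [← hjV]
        ring
      exact_mod_cast (mul_eq_zero.1 h1).resolve_right hV
    rw [hj0] at hm
    have hD : discr K = -3 := by
      simp only [cmMax, List.mem_cons, Prod.mk.injEq, List.not_mem_nil, or_false] at hm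
      omega
    obtain ⟨θ, hθ⟩ := of_val_w hK hD
    exact cm3_bwd (w := (θ : K) - 1) (d := a₃) (by linear_combination co_w hθ) ha hC
  · intro h
    have hD : discr K = -3 := (exists_cm3_iff hK).1 ⟨W, h⟩
    obtain ⟨θ, hθ⟩ := of_val_w hK hD
    have hθ' := co_w hθ
    rcases cm3_fwd h with ⟨w, d, hw, hd, C, hC⟩ | ⟨i, t, hi, -⟩
    · refine ⟨h.1, ⟨0, by rw [hD]; simp [cmMax], ?_⟩, C, 0, d, 0, hC, fun _ => rfl, fun h => ?_,
        fun _ => rfl⟩
      · refine hasJ_of hC ?_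
        unfold HasJ
        rw [tc_c₄]
        push_cast
        ring
      · exact absurd (by norm_num) h
    · exact (excl6 hK hi (th3 hθ')).elim

/-- **The class is empty for `p > 3`.** -/
theorem cmp_ge {p : ℕ} (hp : p.Prime) (h2 : p ≠ 2) (h3 : p ≠ 3) (W : WeierstrassCurve K) :
    ¬ CMp p W := by
  rintro ⟨hΔ, -, C, a₂, a₃, a₄, hC, k2, k3, k4⟩
  have e2 : ¬ p ∣ 2 := fun h => h2 ((Nat.prime_dvd_prime_iff_eq hp Nat.prime_two).1 h)
  have e3 : ¬ p ∣ 3 := fun h => h3 ((Nat.prime_dvd_prime_iff_eq hp Nat.prime_three).1 h)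
  have e4 : ¬ p ∣ 4 := fun h => e2 (hp.dvd_of_dvd_pow (show p ∣ 2 ^ 2 from h))
  rw [k2 e2, k3 e3, k4 e4] at hC
  apply (Δ_smul hC).1 hΔ
  unfold WeierstrassCurve.Δ WeierstrassCurve.b₂ WeierstrassCurve.b₄ WeierstrassCurve.b₆
    WeierstrassCurve.b₈
  ring

/-- `3` is neither prime nor squarefree in the ring of integers of the field of discriminant `-3` -/
theorem nsf_three {θ : 𝓞 K} (hK : Module.finrank ℚ K = 2) (hθ : θ ^ 2 = θ - 1) :
    ¬ Squarefree (3 : 𝓞 K) := by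
  intro h
  have h1 : (2 * θ - 1) * (2 * θ - 1) ∣ (3 : 𝓞 K) := ⟨-1, by linear_combination 4 * hθ⟩
  have h2 := h _ h1
  have h3 : Algebra.norm ℤ (3 : 𝓞 K) = 9 := by
    have := Pool.Agent.Lib.MP_1a91b9_ntI.norm_int (K := K) hK 3
    push_cast at this
    rw [this]
  have h4 : IsUnit (3 : 𝓞 K) := by
    have e : (3 : 𝓞 K) = (2 * θ - 1) * (2 * θ - 1) * -1 := by linear_combination 4 * hθ
    rw [e]
    exact (h2.mul h2).mul isUnit_one.neg
  have h5 := h4.map (Algebra.norm ℤ)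
  rw [h3, Int.isUnit_iff] at h5
  omega

theorem np_three {θ : 𝓞 K} (hK : Module.finrank ℚ K = 2) (hθ : θ ^ 2 = θ - 1) :
    ¬ Prime (3 : 𝓞 K) := fun h => nsf_three hK hθ h.irreducible.squarefree

end

end Pool.Agent.Lib.MP_1a91b9_ntO
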