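import Pool.Agent.Lib.MP_1a91b9_ntO.All
import Pool.Agent.Lib.MP_1a91b9_ntO.DefsT
import Pool.Agent.Lib.MP_1a91b9_ntJ.Cub2
import Pool.Agent.Lib.MP_1a91b9_ntJ.KS2

/-!
# The towers for the curves with complex multiplication and a point of order `p`
-/

set_option autoImplicit false

namespace Pool.Agent.Lib.MP_1a91b9_ntO

open NumberField IsDedekindDomain WeierstrassCurve Module
open Pool.Agent.Lib.MP_1a91b9_ntS (BSDMod)
open Pool.Agent.Lib.MP_1a91b9_ntI (Fr exists_beta)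
open Pool.Agent.Lib.MP_1a91b9_nuI (HasJ Lne hasJ_change)
open Pool.Agent.Lib.MP_1a91b9_ntL (crv)
open Pool.Agent.Lib.MP_1a91b9_ntW.J (twd twd_crv)
open Pool.Agent.Lib.MP_1a91b9_ntJ (TowP towP_vc lne_vc ks_star cub_star exists_e6 exists_iso3)
open Pool.Agent.Lib.MP_1a91b9_ntY (CMK Pt2 cmList)
open Pool.Agent.Lib.MP_1a91b9_nuE (exists_cdE)
open Pool.Agent.Lib.MP_1a91b9_nuX.TM (sw)

/-- from the towers above `F = K` -/
theorem tow_of {K : Type} [Field K] [NumberField K] {V : WeierstrassCurve K} (h : TowP K V) :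
    Tow V := by
  obtain ⟨S, hS⟩ := h
  refine ⟨S, fun q hq hqS j N L M _ _ _ _ _ _ _ _ _ _ _ _ hM hR W C hC => ?_⟩
  refine hS q hqS j N L M hM (fun v w hvw => ⟨fun hv => ?_, fun hv V₀ C₀ hV₀ hΔ => ?_⟩) W C hC
  · have key : ∀ f : 𝓞 K →+* 𝓞 K, (∀ x : 𝓞 K, ((f x : 𝓞 K) : K) = (x : K)) →
        Ideal.absNorm (Ideal.comap f v.asIdeal) = Ideal.absNorm v.asIdeal := by
      intro f hf
      have e1 : f = RingHom.id _ := RingHom.ext fun x => RingOfIntegers.ext (hf x)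
      rw [e1, Ideal.comap_id]
    exact (key _ fun x => rfl).trans ((hR v w hvw).1 hv)
  · exact (hR v w hvw).2 hv V₀ C₀ hV₀ hΔ

/-! ### The Tamagawa numbers are not zero -/

theorem val_one {N : Type} [Field N] [NumberField N] {q : ℕ} (v : HeightOneSpectrum (𝓞 N))
    (hv : (q : 𝓞 N) ∉ v.asIdeal) : Valued.v (q : v.adicCompletion N) = 1 := by
  have e : (q : v.adicCompletion N) = algebraMap N (v.adicCompletion N) (q : N) :=
    (map_natCast _ q).symm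
  have e' : (q : N) = algebraMap (𝓞 N) N (q : 𝓞 N) := (map_natCast _ q).symm
  have e2 : Valued.v (algebraMap N (v.adicCompletion N) (q : N)) = v.valuation N (q : N) :=
    HeightOneSpectrum.valuedAdicCompletion_eq_valuation' v _
  rw [e, e2, e']
  refine le_antisymm (v.valuation_le_one _) (not_lt.1 fun h => hv ?_)
  exact (v.valuation_lt_one_iff_mem (K := N) (q : 𝓞 N)).1 h

theorem tam_ne {N : Type} [Field N] [NumberField N] {W : WeierstrassCurve N} (hΔ : W.Δ ≠ 0)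
    {j : ℤ} (hj : HasJ W j) (v : HeightOneSpectrum (𝓞 N)) :
    Pool.Agent.Lib.MP_1a91b9_nuT.S9.tam W v ≠ 0 := by
  obtain ⟨tr, nm, -, hg', hmem, u, hu, cd, -⟩ := exists_cdE (A := 0) (B := 16) (J := 0)
    (by norm_num) (by norm_num) (by decide)
  have i2 : Invertible (2 : N) := invertibleOfNonzero two_ne_zero
  have i3 : Invertible (3 : N) := invertibleOfNonzero three_ne_zero
  obtain ⟨C, hC⟩ := W.exists_variableChange_isShortNF
  obtain ⟨A, hA⟩ : ∃ A, A = (C • W).a₄ := ⟨_, rfl⟩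
  obtain ⟨B, hB⟩ : ∃ B, B = (C • W).a₆ := ⟨_, rfl⟩
  have hD : C • W = sw A B := by
    have e : sw A B = ⟨0, 0, 0, A, B⟩ := rfl
    rw [e, hA, hB]
    exact WeierstrassCurve.ext hC.a₁ hC.a₂ hC.a₃ rfl rfl
  have hΔ' : (C • W).Δ ≠ 0 := (Δ_smul (C := C) rfl).1 hΔ
  have hj' : HasJ (C • W) j := hasJ_change W C j hj
  rw [hD] at hΔ' hj'
  have e1 : (sw A B).Δ = -16 * (4 * A ^ 3 + 27 * B ^ 2) := by
    simp only [sw, WeierstrassCurve.Δ, WeierstrassCurve.b₂, WeierstrassCurve.b₄,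
      WeierstrassCurve.b₆, WeierstrassCurve.b₈]
    ring
  have hab : 4 * A ^ 3 + 27 * B ^ 2 ≠ 0 := by
    intro h
    rw [e1, h, mul_zero] at hΔ'
    exact hΔ' rfl
  have hj2 : 6912 * A ^ 3 = j * (4 * A ^ 3 + 27 * B ^ 2) := by
    have h1 := hj'
    rw [HasJ, e1] at h1
    have e2 : (sw A B).c₄ = -48 * A := by
      simp only [sw, WeierstrassCurve.c₄, WeierstrassCurve.b₂, WeierstrassCurve.b₄]
      ring
    rw [e2] at h1
    linear_combination (-1 / 16) * h1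
  have key : ∀ q : ℕ, q.Prime → 5 ≤ q → (q : 𝓞 N) ∉ v.asIdeal →
      Pool.Agent.Lib.MP_1a91b9_nuT.S9.tam W v ≠ 0 := by
    intro q hq h5 hv h0
    have h1 := Pool.Agent.Lib.MP_1a91b9_nuI.tam_gen hab hj2 hD hq h5 v (Or.inl (val_one v hv))
    rw [h0, Nat.coprime_zero_left] at h1
    omega
  by_cases h5 : ((5 : ℕ) : 𝓞 N) ∈ v.asIdeal
  · refine key 7 (by norm_num) (by norm_num) fun h7 => ?_
    apply v.isPrime.ne_top
    rw [Ideal.eq_top_iff_one]
    have e : (1 : 𝓞 N) = 3 * ((5 : ℕ) : 𝓞 N) - 2 * ((7 : ℕ) : 𝓞 N) := by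
      push_cast
      norm_num
    rw [e]
    exact sub_mem (v.asIdeal.mul_mem_left _ h5) (v.asIdeal.mul_mem_left _ h7)
  · exact key 5 (by norm_num) le_rfl h5

/-! ### The L-function does not vanish -/

open scoped Classical in
theorem lne_of {K : Type} [Field K] [NumberField K] {p : ℕ} [Fact p.Prime]
    {W : WeierstrassCurve K} {q : ℚ} (h : BSDMod p W q) (hq : ¬ (p : ℤ) ∣ q.num)
    (hT : ∀ v : HeightOneSpectrum (𝓞 K), Pool.Agent.Lib.MP_1a91b9_ntT.S9.tam W v ≠ 0) :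
    Lne W := by
  obtain ⟨⟨g, h1, h2, h3⟩, -, h5⟩ := h
  have h6 := (h5.1 hq).1
  refine ⟨g, h1, h2, fun h0 => ?_⟩
  rw [h0, zero_mul, zero_div] at h3
  have hq0 : q ≠ 0 := by
    rintro rfl
    exact hq (by simp)
  have hT' : ∏ᶠ v : HeightOneSpectrum (𝓞 K), Pool.Agent.Lib.MP_1a91b9_ntT.S9.tam W v ≠ 0 :=
    finprod_induction (· ≠ 0) one_ne_zero (fun _ _ => mul_ne_zero) hT
  have hC : Nat.card (AddCommGroup.primaryComponent W.toAffine.Point p) ≠ 0 :=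
    Nat.card_pos.ne'
  have h7 : (q : ℝ) * (((∏ᶠ v : HeightOneSpectrum (𝓞 K),
      Pool.Agent.Lib.MP_1a91b9_ntT.S9.tam W v : ℕ) : ℝ) /
      (Nat.card (AddCommGroup.primaryComponent W.toAffine.Point p) : ℝ) ^ 2) ≠ 0 := by
    refine mul_ne_zero (by exact_mod_cast hq0) (div_ne_zero (by exact_mod_cast hT') ?_)
    exact pow_ne_zero 2 (by exact_mod_cast hC)
  exact h7 (by exact_mod_cast h3.symm)

/-! ### The two cases -/

section

theorem cm_sub : ∀ x ∈ cmMax, x ∈ cmList := by decide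

theorem adj_top {K : Type} [Field K] (l : ℕ) :
    IntermediateField.adjoin K {x : K | ∃ c : K, x ^ l = algebraMap K K c} = ⊤ :=
  eq_top_iff.2 fun z _ => IntermediateField.algebraMap_mem _ z

variable {K : Type} [Field K] [NumberField K]

theorem sq_discr (hK : finrank ℚ K = 2) : ∃ s : K, s ^ 2 = ((discr K : ℤ) : K) := by
  obtain ⟨x, t, n, hx, hD⟩ := exists_beta hK
  refine ⟨2 * (x : K) - (t : K), ?_⟩
  have h := congrArg (algebraMap (𝓞 K) K) hx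
  rw [map_pow, map_sub, map_mul, map_intCast, map_intCast] at h
  have h' : (x : K) ^ 2 = (t : K) * (x : K) - (n : K) := h
  rw [hD]
  push_cast
  linear_combination 4 * h'

theorem tow_two (hK : finrank ℚ K = 2) {a b : K}
    (hΔ : (⟨0, a, 0, b, 0⟩ : WeierstrassCurve K).Δ ≠ 0) {j : ℤ} (hm : (j, discr K) ∈ cmMax)
    (hj : HasJ (⟨0, a, 0, b, 0⟩ : WeierstrassCurve K) j)
    (hL : Lne (⟨0, a, 0, b, 0⟩ : WeierstrassCurve K)) :
    TowP K (⟨0, a, 0, b, 0⟩ : WeierstrassCurve K) := by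
  obtain ⟨s, hs⟩ := sq_discr hK
  have hW : CMK (crv a b) := by
    exact ⟨hΔ, j, discr K, s, cm_sub _ hm, hs, hj⟩
  have hP : Pt2 (crv a b) := by
    refine ⟨0, ?_⟩
    have h6 : (crv a b).b₆ = 0 := by
      unfold WeierstrassCurve.b₆ crv
      ring
    rw [h6]
    ring
  have e : (twd (crv a b) (((1 : 𝓞 K) : 𝓞 K) : K)).map (algebraMap K K) = ⟨0, a, 0, b, 0⟩ := by
    rw [twd_crv]
    have e1 : ((1 : 𝓞 K) : K) = 1 := rfl
    rw [e1, one_mul, one_pow, one_mul]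
    exact WeierstrassCurve.ext (map_zero _) rfl (map_zero _) rfl (map_zero _)
  have h := ks_star (K := K) (F := K) (l := 2) (Or.inl rfl) (adj_top 2) hK hW hP (d := 1)
    one_ne_zero (by rw [e]; exact hL)
  rw [e] at h
  exact h

theorem tow_three (hK : finrank ℚ K = 2) (h3 : discr K = -3) {a : K} (ha : a ≠ 0)
    (hL : Lne (⟨0, 0, a, 0, 0⟩ : WeierstrassCurve K)) :
    TowP K (⟨0, 0, a, 0, 0⟩ : WeierstrassCurve K) := by
  obtain ⟨s, hs⟩ := sq_discr hK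
  rw [h3] at hs
  have hs' : s ^ 2 = -3 := by
    rw [hs]
    norm_num
  obtain ⟨e⟩ := exists_e6 hK hs'
  obtain ⟨⟨x, y⟩, hxy⟩ := IsLocalization.surj (nonZeroDivisors (𝓞 K)) a
  have hy : ((y : 𝓞 K) : K) ≠ 0 := by exact_mod_cast nonZeroDivisors.ne_zero y.2
  have h : a * (((y : 𝓞 K) : 𝓞 K) : K) = ((x : 𝓞 K) : K) := hxy
  have e1 : ((x * (y : 𝓞 K) ^ 2 : 𝓞 K) : K) = a * ((y : 𝓞 K) : K) ^ 3 := by
    push_cast
    linear_combination (-((y : 𝓞 K) : K) ^ 2) * h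
  have hα : x * (y : 𝓞 K) ^ 2 ≠ 0 := by
    intro h0
    rw [h0] at e1
    exact mul_ne_zero ha (pow_ne_zero 3 hy) (by rw [← e1]; rfl)
  have hC1 : (⟨(Units.mk0 ((y : 𝓞 K) : K) hy)⁻¹, 0, 0, 0⟩ : VariableChange K) •
      (⟨0, 0, a, 0, 0⟩ : WeierstrassCurve K) = ⟨0, 0, ((x * (y : 𝓞 K) ^ 2 : 𝓞 K) : K), 0, 0⟩ := by
    rw [e1]
    ext
    · simp [variableChange_a₁]
    · simp [variableChange_a₂]
    · simp only [variableChange_a₃, inv_inv, Units.val_mk0]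
      ring
    · simp [variableChange_a₄]
    · simp [variableChange_a₆]
  have hj0 : HasJ (⟨0, 0, a, 0, 0⟩ : WeierstrassCurve K) 0 := by
    simp [HasJ, WeierstrassCurve.c₄, WeierstrassCurve.b₂, WeierstrassCurve.b₄]
  have hL1 := lne_vc hC1 hj0 hL
  have h6 := cub_star (K := K) (F := K) e (adj_top 3) hs' hα hL1
  obtain ⟨C2, hC2⟩ := exists_iso3 ((x * (y : 𝓞 K) ^ 2 : 𝓞 K) : K)
  exact towP_vc hC1 (towP_vc hC2 h6)

/-- **The towers for the curves of the class whose value has a numerator prime to `p`.** -/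
theorem cmp_tow (p : ℕ) [hp : Fact p.Prime] (hK : finrank ℚ K = 2) {W : WeierstrassCurve K}
    (hW : CMp p W) {q : ℚ} (hb : BSDMod p W q) (hq : ¬ (p : ℤ) ∣ q.num) : Tow W := by
  have hge := fun h2 h3 => cmp_ge (K := K) hp.out h2 h3 W
  obtain ⟨hΔ, ⟨j, hm, hj⟩, C, a₂, a₃, a₄, hC, k2, k3, k4⟩ := id hW
  have hL : Lne W := lne_of hb hq fun v => tam_ne hΔ hj v
  have hL' := lne_vc hC hj hL
  have hΔ' := (Δ_smul hC).1 hΔ
  have hj' := hasJ_change W C j hj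
  rw [hC] at hj'
  refine tow_of (towP_vc hC ?_)
  by_cases h2 : p = 2
  · subst h2
    have h0 : a₃ = 0 := k3 (by norm_num)
    subst h0
    exact tow_two hK hΔ' hm hj' hL'
  by_cases h3 : p = 3
  · subst h3
    have h0 : a₂ = 0 := k2 (by norm_num)
    have h4 : a₄ = 0 := k4 (by norm_num)
    subst h0
    subst h4
    have ha : a₃ ≠ 0 := by
      rintro rfl
      apply hΔ'
      simp [WeierstrassCurve.Δ, WeierstrassCurve.b₂, WeierstrassCurve.b₄, WeierstrassCurve.b₆,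
        WeierstrassCurve.b₈]
    have hj0 : j = 0 := by
      have e : (⟨0, 0, a₃, 0, 0⟩ : WeierstrassCurve K).c₄ = 0 := by
        simp [WeierstrassCurve.c₄, WeierstrassCurve.b₂, WeierstrassCurve.b₄]
      rw [HasJ, e, zero_pow three_ne_zero] at hj'
      have h1 := (mul_eq_zero.1 hj'.symm).resolve_right hΔ'
      exact_mod_cast h1
    have h3' : discr K = -3 := by
      rw [hj0] at hm
      simp only [cmMax, List.mem_cons, Prod.mk.injEq, List.not_mem_nil, or_false] at hm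
      omega
    exact tow_three hK h3' ha hL'
  · exact absurd hW (hge h2 h3)

end

noncomputable section

open Classical in
/-- **The main theorem for every prime number, with the towers.** -/
theorem main_allpt (p : ℕ) [Fact p.Prime] (K : Type) [Field K] [NumberField K]
    (hK : Module.finrank ℚ K = 2) :
    ((∃ W : WeierstrassCurve K, CMp p W) ↔
      (p, discr K) ∈ [((2 : ℕ), (-3 : ℤ)), (2, -4), (2, -7), (2, -8), (3, -3)]) ∧
    ((∃ W : WeierstrassCurve K, CMp p W) → ∃ (a₂ a₃ a₄ : 𝓞 K) (w : ℕ) (c : ℝ) (q : 𝓞 K → ℚ),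
      (w = if discr K = -4 then 4 else p) ∧
      (¬ w ∣ 2 → a₂ = 0) ∧ (¬ w ∣ 3 → a₃ = 0) ∧ (¬ w ∣ 4 → a₄ = 0) ∧
      (c = if Prime (p : 𝓞 K) then ∏' i : ℕ, (1 + 1 / (p : ℝ) ^ (2 * i + 1))⁻¹ else
        if Squarefree (p : 𝓞 K) then ∏' i : ℕ, (1 - 1 / (p : ℝ) ^ (i + 1)) else
        ∏' i : ℕ, (1 + 1 / (p : ℝ) ^ (i + 1))⁻¹) ∧
      (∀ W : WeierstrassCurve K, CMp p W ↔
        ∃ D : 𝓞 K, Fr K w D ∧ ∃ C : VariableChange K, C • W = fam K w a₂ a₃ a₄ D) ∧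
      (∀ D D' : 𝓞 K, Fr K w D → Fr K w D' →
        ((∃ C : VariableChange K, C • fam K w a₂ a₃ a₄ D = fam K w a₂ a₃ a₄ D') ↔
          ∃ u : 𝓞 K, IsUnit u ∧ D' = u ^ w * D)) ∧
      (∀ (D : 𝓞 K) (W : WeierstrassCurve K) (C : VariableChange K), Fr K w D →
        C • W = fam K w a₂ a₃ a₄ D → BSDMod p W (q D) ∧ (¬ (p : ℤ) ∣ (q D).num → Tow W)) ∧
      ∀ (n : ℕ) (m u : 𝓞 K), m ∣ (p : 𝓞 K) ^ n →
        (∀ π : 𝓞 K, Prime π → ¬ (π ^ w ∣ m ∧ π ^ w ∣ u)) →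
        Filter.Tendsto (fun X : ℝ =>
          (Nat.card {D : 𝓞 K // Fr K w D ∧ m ∣ D - u ∧ |Algebra.norm ℤ D| ≤ X ∧
            ¬ (p : ℤ) ∣ (q D).num} : ℝ) /
          (Nat.card {D : 𝓞 K // Fr K w D ∧ m ∣ D - u ∧ |Algebra.norm ℤ D| ≤ X} : ℝ))
          Filter.atTop (nhds c)) := by
  obtain ⟨h1, h2⟩ := main_allp p K hK
  refine ⟨h1, fun h => ?_⟩
  obtain ⟨a₂, a₃, a₄, w, c, q, hw, e2, e3, e4, hc, hcl, his, hb, hd⟩ := h2 h
  exact ⟨a₂, a₃, a₄, w, c, q, hw, e2, e3, e4, hc, hcl, his, fun D W C hD hC =>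
    ⟨hb D W C hD hC, fun hq => cmp_tow p hK ((hcl W).2 ⟨D, hD, C, hC⟩) (hb D W C hD hC) hq⟩, hd⟩

end

end Pool.Agent.Lib.MP_1a91b9_ntO
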