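import Pool.Agent.Lib.MP_1a91b9_ntO.Defs
import Pool.Agent.Lib.MP_1a91b9_ntO.Disc
import Pool.Agent.Lib.MP_1a91b9_ntI.Ex2
import Pool.Agent.Lib.MP_1a91b9_ntY.Ord

/-!
# The class for `p = 2`
-/

set_option autoImplicit false
set_option linter.unusedSectionVars false

namespace Pool.Agent.Lib.MP_1a91b9_ntO

open NumberField WeierstrassCurve
open Pool.Agent.Lib.MP_1a91b9_ntI
open Pool.Agent.Lib.MP_1a91b9_ntL (crv Endo2 endo2_iff)
open Pool.Agent.Lib.MP_1a91b9_nuI (HasJ hasJ_change)
open Pool.Agent.Lib.MP_1a91b9_ntY (Pt2 no_pt2 crv_of_0 crv_of_1728 crv_of_j crv_Δ crv_c₄ crv_c₆ hasJ_crv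
  hasJ_th)

section

variable {K : Type} [Field K] [NumberField K]

/-- an equation for an element of the ring of integers holds in the field -/
theorem co_i {x : 𝓞 K} (h : x ^ 2 = -1) : (x : K) ^ 2 = -1 := by
  have := congrArg (algebraMap (𝓞 K) K) h
  rwa [map_pow, map_neg, map_one] at this

theorem co_s {x : 𝓞 K} (h : x ^ 2 = -2) : (x : K) ^ 2 = -2 := by
  have := congrArg (algebraMap (𝓞 K) K) h
  rwa [map_pow, map_neg, map_ofNat] at this

theorem co_t {x : 𝓞 K} (h : x ^ 2 = x - 2) : (x : K) ^ 2 = (x : K) - 2 := by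
  have := congrArg (algebraMap (𝓞 K) K) h
  rwa [map_pow, map_sub, map_ofNat] at this

theorem co_w {x : 𝓞 K} (h : x ^ 2 = x - 1) : (x : K) ^ 2 = (x : K) - 1 := by
  have := congrArg (algebraMap (𝓞 K) K) h
  rwa [map_pow, map_sub, map_one] at this

theorem Δ_smul {W V : WeierstrassCurve K} {C : VariableChange K} (h : C • W = V) :
    W.Δ ≠ 0 ↔ V.Δ ≠ 0 := by
  rw [← h, variableChange_Δ]
  constructor
  · intro h1
    exact mul_ne_zero (pow_ne_zero _ (Units.ne_zero _)) h1
  · intro h1 h2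
    rw [h2, mul_zero] at h1
    exact h1 rfl

theorem hasJ_of {W V : WeierstrassCurve K} {C : VariableChange K} (h : C • W = V) {j : ℤ}
    (hV : HasJ V j) : HasJ W j := by
  have := hasJ_change V C⁻¹ j hV
  rwa [← h, inv_smul_smul] at this

theorem two_of {W : WeierstrassCurve K} {C : VariableChange K} {a b : K} (h : C • W = crv a b)
    (hΔ : W.Δ ≠ 0) : Two W := by
  have h1 := (Δ_smul h).1 hΔ
  rw [crv_Δ] at h1
  refine ⟨a, b, ?_, ?_, C, h⟩
  · rintro rfl
    apply h1
    ring
  · intro h2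
    apply h1
    rw [h2, mul_zero]

/-- a curve with an endomorphism of degree two or an automorphism, through an isomorphic curve -/
theorem endo2_smul {W V : WeierstrassCurve K} {C : VariableChange K} (h : C • W = V) (hV : Endo2 V) :
    Endo2 W := by
  obtain ⟨a, b, hb, hd, ⟨C', hC'⟩, h'⟩ := hV
  exact ⟨a, b, hb, hd, ⟨C' * C, by rw [mul_smul, h, hC']⟩, h'⟩

/-- **The class for `p = 2`.** -/
theorem cmp_two_iff (hK : Module.finrank ℚ K = 2) (W : WeierstrassCurve K) : CMp 2 W ↔ CM2 W := by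
  rw [cm2_iff]
  constructor
  · rintro ⟨hΔ, ⟨j, hm, hj⟩, C, a₂, a₃, a₄, hC, -, h3, -⟩
    have h3' : a₃ = 0 := h3 (by norm_num)
    rw [h3'] at hC
    have hC' : C • W = crv a₂ a₄ := hC
    have hT : Two W := two_of hC' hΔ
    have hV : (crv a₂ a₄).Δ ≠ 0 := (Δ_smul hC').1 hΔ
    have hjV : HasJ (crv a₂ a₄) j := by
      rw [← hC']
      exact hasJ_change W C j hj
    have hP : Pt2 (crv a₂ a₄) := by
      refine ⟨0, ?_⟩
      unfold crv WeierstrassCurve.b₂ WeierstrassCurve.b₄ WeierstrassCurve.b₆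
      ring
    simp only [cmMax, List.mem_cons, Prod.mk.injEq, List.not_mem_nil, or_false] at hm
    rcases hm with ⟨rfl, hD⟩ | ⟨rfl, hD⟩ | ⟨rfl, hD⟩ | ⟨rfl, hD⟩ | ⟨rfl, -⟩ | ⟨rfl, -⟩ | ⟨rfl, -⟩ |
      ⟨rfl, -⟩ | ⟨rfl, -⟩
    · obtain ⟨θ, hθ⟩ := of_val_w hK hD
      obtain ⟨e, -, C₁, hC₁⟩ := crv_of_0 hV hjV hP
      refine Or.inr ⟨hT, autN_smul C ?_⟩
      rw [hC']
      refine autN_smul C₁ ?_
      rw [hC₁]
      exact autN_crv_w (w := (θ : K) - 1) three_ne_zero (by linear_combination co_w hθ)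
    · obtain ⟨i, hi⟩ := of_val_i hK hD
      obtain ⟨b, hb, C₁, hC₁⟩ := crv_of_1728 hV hjV
      exact Or.inl (endo2_smul hC' ((endo2_iff _).2 (Or.inl ⟨i, b, co_i hi, hb, C₁, hC₁⟩)))
    · obtain ⟨θ, hθ⟩ := of_val_t hK hD
      have hθ' := co_t hθ
      obtain ⟨k4, kΔ⟩ := hasJ_th hθ'
      have t0 : HasJ (crv (1 + (1 - (θ : K)) ^ 4) ((1 - (θ : K)) ^ 4) : WeierstrassCurve K)
          (-3375) := by
        unfold HasJ
        rw [k4, kΔ]
        push_cast
        norm_num
      obtain ⟨d, hd, C₁, hC₁⟩ := crv_of_j hV hjV t0 (by rw [kΔ]; norm_num) (by rw [k4]; norm_num)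
        (by
          intro h6
          have r := (crv (1 + (1 - (θ : K)) ^ 4) ((1 - (θ : K)) ^ 4) : WeierstrassCurve K).c_relation
          rw [k4, kΔ, h6] at r
          norm_num at r)
      exact Or.inl (endo2_smul hC'
        ((endo2_iff _).2 (Or.inr (Or.inr ⟨θ, d, hθ', hd, C₁, hC₁⟩))))
    · obtain ⟨s, hs⟩ := of_val_s hK hD
      have t1 : HasJ (crv (4 : K) 2) 8000 := hasJ_crv (by push_cast; norm_num)
      obtain ⟨e, he, C₁, hC₁⟩ := crv_of_j hV hjV t1 (by rw [crv_Δ]; norm_num)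
        (by rw [crv_c₄]; norm_num) (by rw [crv_c₆]; norm_num)
      rw [mul_comm e 4, mul_comm (e ^ 2) 2] at hC₁
      exact Or.inl (endo2_smul hC'
        ((endo2_iff _).2 (Or.inr (Or.inl ⟨s, e, co_s hs, he, C₁, hC₁⟩))))
    · exact absurd hP (no_pt2 hK hV (p := -264) (q := 1694) (by decide) (by decide) (by decide)
        (by norm_num) hjV)
    · exact absurd hP (no_pt2 hK hV (p := -152) (q := 722) (by decide) (by decide) (by decide)
        (by norm_num) hjV)
    · exact absurd hP (no_pt2 hK hV (p := -3440) (q := 77658) (by decide) (by decide) (by decide)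
        (by norm_num) hjV)
    · exact absurd hP (no_pt2 hK hV (p := -29480) (q := 1948226) (by decide) (by decide)
        (by decide) (by norm_num) hjV)
    · exact absurd hP (no_pt2 hK hV (p := -8697680) (q := 9873093538) (by decide) (by decide)
        (by decide) (by norm_num) hjV)
  · -- conversely
    have main : ∀ (j D : ℤ) (a b : K), (j, D) ∈ cmMax → discr K = D → HasJ (crv a b) j →
        (crv a b).Δ ≠ 0 → ∀ C : VariableChange K, C • W = crv a b → CMp 2 W := by
      intro j D a b hjD hD hj hΔ C hC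
      refine ⟨(Δ_smul hC).2 hΔ, ⟨j, hD ▸ hjD, hasJ_of hC hj⟩, C, a, 0, b, hC, fun h => ?_, fun _ => rfl,
        fun h => ?_⟩
      · exact absurd (by norm_num) h
      · exact absurd (by norm_num) h
    rintro (h | h)
    · rcases (endo2_iff W).1 h with ⟨i, b, hi, hb, C, hC⟩ | ⟨s, d, hs, hd, C, hC⟩ |
        ⟨θ, d, hθ, hd, C, hC⟩
      · obtain ⟨x, hx⟩ := lift_of (y := i) (t := 0) (n := 1) (by rw [hi]; push_cast; ring)
        refine main 1728 (-4) 0 b (by simp [cmMax]) (val_i hK (x := x) (by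
          rw [hx]
          push_cast
          ring)) ?_ ?_ C hC
        · refine hasJ_crv ?_
          push_cast
          ring
        · rw [crv_Δ]
          have e : 16 * b ^ 2 * ((0 : K) ^ 2 - 4 * b) = -64 * b ^ 3 := by ring
          rw [e]
          exact mul_ne_zero (by norm_num) (pow_ne_zero 3 hb)
      · obtain ⟨x, hx⟩ := lift_of (y := s) (t := 0) (n := 2) (by rw [hs]; push_cast; ring)
        refine main 8000 (-8) _ _ (by simp [cmMax]) (val_s hK (x := x) (by
          rw [hx]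
          push_cast
          ring)) ?_ ?_ C hC
        · refine hasJ_crv ?_
          push_cast
          ring
        · rw [crv_Δ]
          have e : 16 * (2 * d ^ 2) ^ 2 * ((4 * d) ^ 2 - 4 * (2 * d ^ 2)) = 512 * d ^ 6 := by ring
          rw [e]
          exact mul_ne_zero (by norm_num) (pow_ne_zero 6 hd)
      · obtain ⟨x, hx⟩ := lift_of (y := θ) (t := 1) (n := 2) (by rw [hθ]; push_cast; ring)
        obtain ⟨k4, kΔ⟩ := hasJ_th hθ
        rw [crv_c₄] at k4
        rw [crv_Δ] at kΔ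
        refine main (-3375) (-7) _ _ (by simp [cmMax]) (val_t hK (x := x) (by
          rw [hx]
          push_cast
          ring)) ?_ ?_ C hC
        · refine hasJ_crv ?_
          have e1 : 16 * ((d * (1 + (1 - θ) ^ 4)) ^ 2 - 3 * (d ^ 2 * (1 - θ) ^ 4)) = d ^ 2 * -240 := by
            rw [← k4]
            ring
          have e2 : 16 * (d ^ 2 * (1 - θ) ^ 4) ^ 2 * ((d * (1 + (1 - θ) ^ 4)) ^ 2 -
              4 * (d ^ 2 * (1 - θ) ^ 4)) = d ^ 6 * 4096 := by
            rw [← kΔ]
            ring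
          rw [e1, e2]
          push_cast
          ring
        · rw [crv_Δ]
          have e2 : 16 * (d ^ 2 * (1 - θ) ^ 4) ^ 2 * ((d * (1 + (1 - θ) ^ 4)) ^ 2 -
              4 * (d ^ 2 * (1 - θ) ^ 4)) = d ^ 6 * 4096 := by
            rw [← kΔ]
            ring
          rw [e2]
          exact mul_ne_zero (pow_ne_zero 6 hd) (by norm_num)
    · rcases (two_autN two_ne_zero three_ne_zero W).1 h with ⟨i, b, hi, hb, C, hC⟩ |
        ⟨w, d, hw, hd, C, hC⟩
      · obtain ⟨x, hx⟩ := lift_of (y := i) (t := 0) (n := 1) (by rw [hi]; push_cast; ring)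
        refine main 1728 (-4) 0 b (by simp [cmMax]) (val_i hK (x := x) (by
          rw [hx]
          push_cast
          ring)) ?_ ?_ C hC
        · refine hasJ_crv ?_
          push_cast
          ring
        · rw [crv_Δ]
          have e : 16 * b ^ 2 * ((0 : K) ^ 2 - 4 * b) = -64 * b ^ 3 := by ring
          rw [e]
          exact mul_ne_zero (by norm_num) (pow_ne_zero 3 hb)
      · obtain ⟨x, hx⟩ := lift_of (y := -w) (t := 1) (n := 1) (by
          push_cast
          linear_combination hw)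
        refine main 0 (-3) _ _ (by simp [cmMax]) (val_w hK (x := x) (by
          rw [hx]
          push_cast
          ring)) ?_ ?_ C hC
        · refine hasJ_crv ?_
          push_cast
          ring
        · rw [crv_Δ]
          have e : 16 * (3 * d ^ 2) ^ 2 * ((-3 * d) ^ 2 - 4 * (3 * d ^ 2)) = -432 * d ^ 6 := by ring
          rw [e]
          exact mul_ne_zero (by norm_num) (pow_ne_zero 6 hd)

end

end Pool.Agent.Lib.MP_1a91b9_ntO
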